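import Mathlib
import Pool.Agent.H24.PathList

namespace Pool.Agent.Results.MP_691331_co.MpCounter

open SimpleGraph

variable {V : Type}

/-- A walk is an induced path: it is a path and every edge of `G` between two of its
vertices is an edge of the walk. -/
def IsInducedPath (G : SimpleGraph V) {u v : V} (p : G.Walk u v) : Prop :=
  p.IsPath ∧ ∀ x ∈ p.support, ∀ y ∈ p.support, G.Adj x y → s(x, y) ∈ p.edges

/-- `X` is in monophonic position. -/
def MonoPos (G : SimpleGraph V) (X : Set V) : Prop :=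
  ∀ u ∈ X, ∀ v ∈ X, u ≠ v → ∀ p : G.Walk u v, IsInducedPath G p →
    ∀ w ∈ p.support, w ∈ X → w = u ∨ w = v

/-- The least number of classes in a partition into independent monophonic position sets. -/
noncomputable def chiMpi (G : SimpleGraph V) : ℕ :=
  sInf {k : ℕ | ∃ c : V → Fin k, ∀ i : Fin k,
    G.IsIndepSet {v | c v = i} ∧ MonoPos G {v | c v = i}}

def es : List (Fin 13 × Fin 13) :=
  [(0,6),(0,8),(0,11),(1,5),(1,9),(1,10),(2,5),(2,7),(2,10),(2,12),(3,6),(3,7),(3,11),(3,12),(4,8),(4,9),(4,10),(4,11),(4,12)]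

def adj (u v : Fin 13) : Bool := es.contains (u, v) || es.contains (v, u)

def G0 : SimpleGraph (Fin 13) where
  Adj u v := adj u v = true
  symm := ⟨by decide⟩
  loopless := ⟨by decide⟩

instance : DecidableRel G0.Adj := fun u v => inferInstanceAs (Decidable (adj u v = true))

/-- start, remaining vertices, end -/
def L : List (Fin 13 × List (Fin 13) × Fin 13) :=
  [(0,[8,4,9,1,5,2,7,3],3),
   (1,[9,4,8,0,6,3,7,2],2),
   (5,[1,9,4,8,0,6,3,7],7),
   (6,[3,7,2,5,1,9,4,8],8),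
   (8,[0,11,3,12,2,10,1,9],9),
   (0,[6,3,7,2,5,1,9,4],4),
   (1,[9,4,8,0,6,3,7],7),
   (4,[9,1,5,2,7,3,6],6),
   (5,[2,7,3,6,0,8,4,9],9),
   (0,[11,3,12,2,10,1,9],9),
   (1,[10,2,12,3,11,0,8],8),
   (2,[5,1,9,4,8,0,6,3],3),
   (3,[6,0,8,4,10,1,5],5),
   (6,[3,12,2,10,1,9],9),
   (7,[2,5,1,9,4,11],11),
   (7,[3,6,0,8,4,9],9),
   (7,[3,6,0,8,4,10],10),
   (8,[0,11,3,12,2,10],10),
   (9,[1,10,2,12,3,11],11),
   (0,[11,3,12,2,10],10),
   (0,[6,3,12,4,10,1,5],5),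
   (1,[10,2,12,3,11],11),
   (1,[5,2,12,4,11,0,6],6),
   (5,[1,10,4,11,0,6],6),
   (5,[1,10,4,12,3,7],7),
   (5,[2,12,3,11,0,8],8),
   (6,[0,11,4,12,2,7],7),
   (0,[8,4,12,2,5,1],1),
   (0,[8,4,12,2,7],7),
   (1,[9,4,8,0,6,3],3),
   (1,[9,4,12,2,7],7),
   (2,[10,4,11,0,6],6),
   (2,[12,3,11,0,8],8),
   (3,[12,2,10,1,9],9),
   (5,[1,9,4,11],11),
   (5,[1,9,4,12],12),
   (5,[1,9,4,12,3,6],6),
   (5,[1,10,4,8],8),
   (5,[1,10,4,11],11),
   (5,[1,10,4,12],12),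
   (5,[2,10,4,9],9),
   (5,[2,12,3,11],11),
   (6,[0,8,4,10],10),
   (6,[0,8,4,12],12),
   (6,[0,11,4,9],9),
   (6,[0,11,4,10],10),
   (6,[0,11,4,12],12),
   (6,[3,11,4,8],8),
   (6,[3,12,2,10],10),
   (7,[2,10,1,9],9),
   (7,[2,10,4,11],11),
   (7,[2,12,4,8],8),
   (7,[2,12,4,9],9),
   (7,[2,12,4,11],11),
   (7,[3,11,0,8],8),
   (7,[3,12,4,10],10),
   (8,[0,11,3,12],12),
   (9,[1,10,2,12],12),
   (10,[2,12,3,11],11)]

theorem edges_eq {G : SimpleGraph V} {u v : V} (p : G.Walk u v) :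
    p.edges = List.zipWith (fun a b => s(a, b)) p.support p.support.tail := by
  induction p with
  | nil => simp
  | cons h p ih => cases p <;> simp_all

set_option synthInstance.maxSize 4000 in
theorem L_ok : ∀ t ∈ L, List.IsChain G0.Adj (t.1 :: t.2.1) ∧ (t.1 :: t.2.1).getLast? = some t.2.2 ∧
    (t.1 :: t.2.1).Nodup ∧ ∀ x ∈ (t.1 :: t.2.1), ∀ y ∈ (t.1 :: t.2.1), G0.Adj x y →
      ((x, y) ∈ List.zip (t.1 :: t.2.1) t.2.1 ∨ (y, x) ∈ List.zip (t.1 :: t.2.1) t.2.1) := by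
  decide +kernel

set_option synthInstance.maxSize 4000 in
theorem L_cov : ∀ u v w : Fin 13, u < v → v < w → ¬ G0.Adj u v → ¬ G0.Adj u w → ¬ G0.Adj v w →
    ∃ t ∈ L, (t.1 = u ∧ t.2.2 = v ∧ w ∈ t.2.1) ∨ (t.1 = u ∧ t.2.2 = w ∧ v ∈ t.2.1) ∨
      (t.1 = v ∧ t.2.2 = w ∧ u ∈ t.2.1) := by
  decide +kernel

theorem L_path : ∀ t ∈ L, ∃ p : G0.Walk t.1 t.2.2, IsInducedPath G0 p ∧
    p.support = t.1 :: t.2.1 := by
  intro t ht
  obtain ⟨h1, h2, h3, h4⟩ := L_ok t ht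
  obtain ⟨p, hp, hs, -⟩ := Pool.Agent.H24.PathList.path_of_chain _ _ _ h1 h2 h3
  refine ⟨p, ⟨hp, ?_⟩, hs⟩
  intro x hx y hy hxy
  rw [edges_eq, hs] at *
  rw [← List.map_uncurry_zip_eq_zipWith, List.mem_map]
  rcases h4 x hx y hy hxy with h | h
  · exact ⟨(x, y), h, rfl⟩
  · exact ⟨(y, x), h, Sym2.eq_swap⟩

theorem no_three (X : Set (Fin 13)) (h1 : G0.IsIndepSet X) (h2 : MonoPos G0 X)
    (u v w : Fin 13) (huv : u < v) (hvw : v < w) (hu : u ∈ X) (hv : v ∈ X) (hw : w ∈ X) :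
    False := by
  have huw := huv.trans hvw
  obtain ⟨t, ht, h⟩ := L_cov u v w huv hvw (h1 hu hv huv.ne) (h1 hu hw huw.ne) (h1 hv hw hvw.ne)
  obtain ⟨p, hp, hs⟩ := L_path t ht
  obtain ⟨a, l, b⟩ := t
  rcases h with ⟨rfl, rfl, h⟩ | ⟨rfl, rfl, h⟩ | ⟨rfl, rfl, h⟩
  · rcases h2 _ hu _ hv huv.ne p hp w (by rw [hs]; exact List.mem_cons_of_mem _ h) hw with e | e
    · exact huw.ne' e
    · exact hvw.ne' e
  · rcases h2 _ hu _ hw huw.ne p hp v (by rw [hs]; exact List.mem_cons_of_mem _ h) hv with e | e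
    · exact huv.ne' e
    · exact hvw.ne e
  · rcases h2 _ hv _ hw hvw.ne p hp u (by rw [hs]; exact List.mem_cons_of_mem _ h) hu with e | e
    · exact huv.ne e
    · exact huw.ne e

theorem nonempty (G : SimpleGraph (Fin 13)) : {k : ℕ | ∃ c : Fin 13 → Fin k, ∀ i : Fin k,
    G.IsIndepSet {v | c v = i} ∧ MonoPos G {v | c v = i}}.Nonempty := by
  refine ⟨13, id, fun i => ⟨?_, ?_⟩⟩
  · intro a ha b hb hab
    exact absurd ((show a = i from ha).trans (show b = i from hb).symm) hab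
  · intro a ha b hb hab
    exact absurd ((show a = i from ha).trans (show b = i from hb).symm) hab

theorem lb1 : 7 ≤ chiMpi G0 := by
  apply le_csInf (nonempty G0)
  rintro k ⟨c, hc⟩
  by_contra hk
  obtain ⟨i, -, hi⟩ := Finset.exists_lt_card_fiber_of_mul_lt_card_of_maps_to
    (s := Finset.univ) (t := Finset.univ) (f := c) (n := 2) (by simp) (by simp; omega)
  obtain ⟨a, b, d, ha, hb, hd, hab, had, hbd⟩ := Finset.two_lt_card_iff.1 hi
  have ha' : a ∈ {v | c v = i} := by simpa using ha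
  have hb' : b ∈ {v | c v = i} := by simpa using hb
  have hd' : d ∈ {v | c v = i} := by simpa using hd
  have N := no_three _ (hc i).1 (hc i).2
  rcases lt_or_gt_of_ne hab with h1 | h1 <;> rcases lt_or_gt_of_ne had with h2 | h2 <;>
    rcases lt_or_gt_of_ne hbd with h3 | h3
  · exact N a b d h1 h3 ha' hb' hd'
  · exact N a d b h2 h3 ha' hd' hb'
  · exact absurd (h1.trans h3) (not_lt.2 h2.le)
  · exact N d a b h2 h1 hd' ha' hb'
  · exact N b a d h1 h2 hb' ha' hd'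
  · exact absurd (h2.trans h3) (not_lt.2 h1.le)
  · exact N b d a h3 h2 hb' hd' ha'
  · exact N d b a h3 h1 hd' hb' ha'

theorem lb2 : 8 ≤ chiMpi G0ᶜ := by
  apply le_csInf (nonempty G0ᶜ)
  rintro k ⟨c, hc⟩
  have key : ∀ a b : Fin 8, a ≠ b → ¬ G0.Adj (a.natAdd 5) (b.natAdd 5) := by decide +kernel
  have hinj : Function.Injective (fun a : Fin 8 => c (a.natAdd 5)) := by
    intro a b hab
    by_contra hne
    have hne' : (a.natAdd 5 : Fin 13) ≠ b.natAdd 5 := by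
      intro h
      apply hne
      ext
      have := congrArg Fin.val h
      simpa using this
    exact (hc (c (b.natAdd 5))).1 (x := a.natAdd 5) hab (y := b.natAdd 5) rfl hne'
      ⟨hne', key a b hne⟩
  simpa using Fintype.card_le_of_injective _ hinj

theorem result : ∃ (n : ℕ) (G : SimpleGraph (Fin n)), n + 2 ≤ chiMpi G + chiMpi Gᶜ :=
  ⟨13, G0, by have := lb1; have := lb2; omega⟩

end Pool.Agent.Results.MP_691331_co.MpCounter
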